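import Pool.Agent.Helper83.Ek.N0

/-! # P9: the group and the relation

`G` is the group of permutations of `Fin 13` which preserve the set of the 60 facets of `N0`;
`r g y` says that `y` lies in the image under `g` of the first facet. -/

set_option autoImplicit false

namespace Pool.Agent.Helper33.Ek

open Pool.Agent.Lead.Ek Pool.Agent.Helper83.Ek Finset

/-- The permutation `σ` maps facets to facets. -/
def Pres (σ : Equiv.Perm (Fin 13)) : Prop :=
  ∀ F ∈ facetMasks, ∃ F' ∈ facetMasks, ∀ y : Fin 13,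
    Nat.testBit F y.val = Nat.testBit F' (σ y).val

/-- The group of the permutations preserving the facets. -/
def Gp : Subgroup (Equiv.Perm (Fin 13)) where
  carrier := {σ | Pres σ ∧ Pres σ⁻¹}
  mul_mem' := by
    rintro σ τ ⟨h1, h2⟩ ⟨h3, h4⟩
    refine ⟨?_, ?_⟩
    · intro F hF
      obtain ⟨F1, hF1, e1⟩ := h3 F hF
      obtain ⟨F2, hF2, e2⟩ := h1 F1 hF1
      exact ⟨F2, hF2, fun y => by rw [e1, e2]; rfl⟩
    · intro F hF
      obtain ⟨F1, hF1, e1⟩ := h2 F hF
      obtain ⟨F2, hF2, e2⟩ := h4 F1 hF1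
      refine ⟨F2, hF2, fun y => ?_⟩
      rw [e1, e2, mul_inv_rev]; rfl
  one_mem' := by
    refine ⟨fun F hF => ⟨F, hF, fun y => rfl⟩, fun F hF => ⟨F, hF, fun y => ?_⟩⟩
    rw [inv_one]; rfl
  inv_mem' := by
    rintro σ ⟨h1, h2⟩
    exact ⟨h2, by rwa [inv_inv]⟩

/-- The first facet. -/
abbrev T0 : Nat := 2104

/-- The relation. -/
def r (g : Gp) (y : Fin 13) : Prop := Nat.testBit T0 ((g⁻¹ : Gp).1 y).val = true

/-- Image of a mask. -/
def pm (f : Fin 13 → Fin 13) (F : Nat) : Nat :=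
  (([0, 1, 2, 3, 4, 5, 6, 7, 8, 9, 10, 11, 12] : List (Fin 13)).map
    fun i => if Nat.testBit F i.val then 2 ^ (f i).val else 0).sum

/-- Check of a map. -/
def chk (f : Fin 13 → Fin 13) : Bool :=
  facetMasks.all fun F => facetMasks.contains (pm f F) &&
    ([0, 1, 2, 3, 4, 5, 6, 7, 8, 9, 10, 11, 12] : List (Fin 13)).all
      fun i => Nat.testBit F i.val == Nat.testBit (pm f F) (f i).val

theorem mem_fin13 (i : Fin 13) :
    i ∈ ([0, 1, 2, 3, 4, 5, 6, 7, 8, 9, 10, 11, 12] : List (Fin 13)) := by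
  revert i; decide

theorem pm_spec (f : Fin 13 → Fin 13) (h : chk f = true) (F : Nat) (hF : F ∈ facetMasks) :
    pm f F ∈ facetMasks ∧ ∀ y : Fin 13, Nat.testBit F y.val = Nat.testBit (pm f F) (f y).val := by
  unfold chk at h
  rw [List.all_eq_true] at h
  have h1 := h F hF
  rw [Bool.and_eq_true] at h1
  obtain ⟨h2, h3⟩ := h1
  refine ⟨by simpa using h2, fun y => ?_⟩
  rw [List.all_eq_true] at h3
  simpa using h3 y (mem_fin13 y)

def f0 : Fin 13 → Fin 13 := ![1, 2, 3, 4, 0, 10, 8, 7, 9, 5, 6, 11, 12]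
def f0i : Fin 13 → Fin 13 := ![4, 0, 1, 2, 3, 9, 10, 7, 6, 8, 5, 11, 12]
def f1 : Fin 13 → Fin 13 := ![1, 2, 0, 3, 4, 7, 10, 8, 5, 6, 9, 11, 12]
def f1i : Fin 13 → Fin 13 := ![2, 0, 1, 3, 4, 8, 9, 5, 7, 10, 6, 11, 12]
def f2 : Fin 13 → Fin 13 := ![0, 1, 2, 3, 4, 5, 6, 7, 8, 9, 10, 12, 11]

def s0 : Equiv.Perm (Fin 13) := ⟨f0, f0i, by unfold Function.LeftInverse; decide,
  by unfold Function.RightInverse Function.LeftInverse; decide⟩
def s1 : Equiv.Perm (Fin 13) := ⟨f1, f1i, by unfold Function.LeftInverse; decide,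
  by unfold Function.RightInverse Function.LeftInverse; decide⟩
def s2 : Equiv.Perm (Fin 13) := ⟨f2, f2, by unfold Function.LeftInverse; decide,
  by unfold Function.RightInverse Function.LeftInverse; decide⟩

theorem chk0 : chk f0 = true := by decide +kernel
theorem chk0i : chk f0i = true := by decide +kernel
theorem chk1 : chk f1 = true := by decide +kernel
theorem chk1i : chk f1i = true := by decide +kernel
theorem chk2 : chk f2 = true := by decide +kernel

theorem pres_of_chk (σ : Equiv.Perm (Fin 13)) (h : chk σ = true) : Pres σ := fun F hF =>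
  ⟨pm σ F, (pm_spec σ h F hF).1, (pm_spec σ h F hF).2⟩

def g0 : Gp := ⟨s0, pres_of_chk s0 chk0, pres_of_chk s0⁻¹ chk0i⟩
def g1 : Gp := ⟨s1, pres_of_chk s1 chk1, pres_of_chk s1⁻¹ chk1i⟩
def g2 : Gp := ⟨s2, pres_of_chk s2 chk2, pres_of_chk s2⁻¹ chk2⟩

/-- `F` is the image of `T0` under an element of the group. -/
def Reach (F : Nat) : Prop :=
  F ∈ facetMasks ∧ ∃ g : Gp, ∀ y : Fin 13, Nat.testBit T0 y.val = Nat.testBit F (g.1 y).val

theorem reach_pm (f : Fin 13 → Fin 13) (hf : chk f = true) (g : Gp) (hg : ∀ y, g.1 y = f y)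
    (F : Nat) (hF : Reach F) : Reach (pm f F) := by
  obtain ⟨h1, h, h2⟩ := hF
  refine ⟨(pm_spec f hf F h1).1, g * h, fun y => ?_⟩
  rw [h2, (pm_spec f hf F h1).2]
  have : (g * h).1 y = g.1 (h.1 y) := rfl
  rw [this, hg]

def fs : Nat → (Fin 13 → Fin 13)
  | 0 => f0
  | 1 => f1
  | _ => f2

theorem reach_fs (j : Nat) (F : Nat) (hF : Reach F) : Reach (pm (fs j) F) := by
  match j with
  | 0 => exact reach_pm f0 chk0 g0 (fun _ => rfl) F hF
  | 1 => exact reach_pm f1 chk1 g1 (fun _ => rfl) F hF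
  | (_ + 2) => exact reach_pm f2 chk2 g2 (fun _ => rfl) F hF

/-- The search tree. -/
def go (acc : List Nat) : List (Nat × Nat) → List Nat
  | [] => acc
  | (j, F) :: ts => if acc.contains F then go (pm (fs j) F :: acc) ts else acc

theorem go_reach (ts : List (Nat × Nat)) : ∀ acc : List Nat, (∀ F ∈ acc, Reach F) →
    ∀ F ∈ go acc ts, Reach F := by
  induction ts with
  | nil => intro acc h; exact h
  | cons t ts ih =>
    intro acc h
    obtain ⟨j, F⟩ := t
    unfold go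
    split_ifs with hc
    · refine ih _ ?_
      intro F' hF'
      rcases List.mem_cons.1 hF' with rfl | hF'
      · exact reach_fs j F (h F (by simpa using hc))
      · exact h F' hF'
    · exact h

def tree : List (Nat × Nat) :=
  [(0, 2104), (1, 2104), (2, 2104), (0, 3089), (1, 3089), (2, 3089), (0, 2200), (1, 2200),
   (2, 2200), (0, 2115), (1, 2115), (2, 2115), (0, 2578), (1, 2578), (2, 2578), (0, 2193),
   (1, 2193), (2, 2193), (0, 2328), (2, 2328), (0, 2310), (2, 2310), (0, 3078), (1, 3078),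
   (2, 3078), (0, 2085), (2, 2085), (0, 2132), (2, 2132), (0, 2179), (2, 2179), (1, 2322),
   (2, 2322), (0, 2577), (1, 2577), (2, 2577), (1, 2572), (2, 2572), (1, 2124), (2, 2124),
   (0, 2565), (2, 2565), (2, 3082), (2, 2313), (0, 2182), (1, 2182), (2, 2182), (2, 2100),
   (2, 2083), (1, 2130), (2, 2130), (2, 2121), (1, 3081), (2, 3081), (2, 2090), (2, 2188),
   (2, 2309), (2, 3092), (2, 2570)]

theorem tree_ok : facetMasks.all (fun F => (go [T0] tree).contains F) = true := by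
  decide +kernel

theorem reach_T0 : Reach T0 := ⟨by decide, 1, fun _ => rfl⟩

theorem reach_all (F : Nat) (hF : F ∈ facetMasks) : Reach F := by
  have h := tree_ok
  rw [List.all_eq_true] at h
  have h1 := h F hF
  refine go_reach tree [T0] ?_ F (by simpa using h1)
  intro F' hF'
  rw [List.mem_singleton] at hF'
  rw [hF']
  exact reach_T0

theorem dowR_eq : dowR r = N0 := by
  ext T
  simp only [dowR, N0, Set.mem_ofPred_eq]
  constructor
  · rintro ⟨g, hg⟩
    obtain ⟨F, hF, e⟩ := g.2.1 T0 reach_T0.1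
    refine ⟨F, hF, fun i hi => ?_⟩
    have h1 := hg i hi
    unfold r at h1
    rw [e] at h1
    have h2 : g.1 ((g⁻¹ : Gp).1 i) = i := by
      have : (g * g⁻¹ : Gp).1 i = i := by rw [mul_inv_cancel]; rfl
      exact this
    rwa [h2] at h1
  · rintro ⟨F, hF, h⟩
    obtain ⟨-, g, e⟩ := reach_all F hF
    refine ⟨g, fun i hi => ?_⟩
    unfold r
    rw [e]
    have h2 : g.1 ((g⁻¹ : Gp).1 i) = i := by
      have : (g * g⁻¹ : Gp).1 i = i := by rw [mul_inv_cancel]; rfl
      exact this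
    rw [h2]
    exact h i hi

theorem linv_dowL [DecidableEq Gp] : LInv (dowL r) := by
  rintro g X ⟨b, hb⟩
  refine ⟨g.1 b, fun a ha => ?_⟩
  obtain ⟨x, hx, rfl⟩ := Finset.mem_image.1 ha
  have h1 := hb x hx
  unfold r at h1 ⊢
  have h2 : ((g * x)⁻¹ : Gp).1 (g.1 b) = ((x⁻¹ : Gp)).1 b := by
    have : ((g * x)⁻¹ * g : Gp).1 b = ((x⁻¹ : Gp)).1 b := by
      rw [mul_inv_rev, mul_assoc, inv_mul_cancel, mul_one]
    exact this
  rw [h2]
  exact h1

theorem miss (b : Fin 13) : ∃ F ∈ facetMasks, Nat.testBit F b.val = false := by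
  revert b; decide +kernel

theorem univ_dowL [Fintype Gp] : (univ : Finset Gp) ∉ dowL r := by
  rintro ⟨b, hb⟩
  obtain ⟨F, hF, h⟩ := miss b
  obtain ⟨-, g, e⟩ := reach_all F hF
  have h1 := hb g (mem_univ _)
  unfold r at h1
  rw [e] at h1
  have h2 : g.1 ((g⁻¹ : Gp).1 b) = b := by
    have : (g * g⁻¹ : Gp).1 b = b := by rw [mul_inv_cancel]; rfl
    exact this
  rw [h2, h] at h1
  exact Bool.noConfusion h1

theorem empty_dowL : (∅ : Finset Gp) ∈ dowL r := ⟨0, by simp⟩

theorem cx_dowR : Cx (dowR r) := by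
  rintro X ⟨b, hb⟩ Y hY
  exact ⟨b, fun a ha => hb a (hY ha)⟩

/-- P9. -/
theorem P9 : ∃ (G : Type) (_ : Group G) (_ : Fintype G) (_ : DecidableEq G)
    (r : G → Fin 13 → Prop), LInv (dowL r) ∧ (univ : Finset G) ∉ dowL r ∧
      (∅ : Finset G) ∈ dowL r ∧ dowR r = N0 ∧ Cx (dowR r) := by
  classical
  have : Fintype Gp := Fintype.ofFinite _
  exact ⟨Gp, inferInstance, inferInstance, inferInstance, r, linv_dowL, univ_dowL, empty_dowL,
    dowR_eq, cx_dowR⟩

end Pool.Agent.Helper33.Ek
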